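import Pool.Agent.Helper8.CS.Rs

set_option autoImplicit false

/-!
Project CS, row COR: the product bound.   [helper8]
-/

namespace Pool.Agent.Helper8.CS

open Classical Pool.Agent.Helper62.CS

variable {Q V : Type} [Fintype Q] [Fintype V]

theorem row_bound {ρ : ℝ} (h0 : 0 ≤ ρ) (h1 : ρ ≤ 1) (k : ℕ) (K : Finset V) (hK : K.card ≤ k) :
    ∑ r : V → Bool, w1 ρ r * (if ∃ v ∈ K, r v = true then 1 else 0) ≤ (k : ℝ) * ρ := by
  calc ∑ r : V → Bool, w1 ρ r * (if ∃ v ∈ K, r v = true then 1 else 0)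
      ≤ ∑ r : V → Bool, ∑ v ∈ K, (if r v = true then w1 ρ r else 0) := by
        apply Finset.sum_le_sum
        intro r _
        have hnn : ∀ v ∈ K, 0 ≤ (if r v = true then w1 ρ r else 0) := by
          intro v _
          split_ifs
          · exact w1_nonneg h0 h1 r
          · exact le_rfl
        by_cases h : ∃ v ∈ K, r v = true
        · rw [if_pos h, mul_one]
          obtain ⟨v, hv, hr⟩ := h
          have h2 := Finset.single_le_sum hnn hv
          rw [if_pos hr] at h2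
          exact h2
        · rw [if_neg h, mul_zero]
          exact Finset.sum_nonneg hnn
    _ = ∑ v ∈ K, ∑ r : V → Bool, (if r v = true then w1 ρ r else 0) := Finset.sum_comm
    _ = ∑ _v ∈ K, ρ := Finset.sum_congr rfl fun v _ => sum_w1_true ρ v
    _ = (K.card : ℝ) * ρ := by rw [Finset.sum_const, nsmul_eq_mul]
    _ ≤ (k : ℝ) * ρ := mul_le_mul_of_nonneg_right (by exact_mod_cast hK) h0

/-- the product bound -/
theorem prod_bound {ρ : ℝ} (h0 : 0 ≤ ρ) (h1 : ρ ≤ 1) (k : ℕ) (I : Finset Q)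
    (K : (Q → V → Bool) → Q → Finset V) (hK : ∀ ξ, ∀ q, (K ξ q).card ≤ k)
    (hdep : ∀ ξ ξ' : Q → V → Bool, (∀ q, q ∉ I → ξ q = ξ' q) → K ξ = K ξ') :
    ∑ ξ : Q → V → Bool, wt ρ ξ * (if ∀ q ∈ I, ∃ v ∈ K ξ q, ξ q v = true then 1 else 0) ≤
      ((k : ℝ) * ρ) ^ I.card := by
  induction I using Finset.induction_on with
  | empty =>
    rw [Finset.card_empty, pow_zero]
    have h2 : ∀ ξ : Q → V → Bool, wt ρ ξ *
        (if ∀ q ∈ (∅ : Finset Q), ∃ v ∈ K ξ q, ξ q v = true then 1 else 0) = wt ρ ξ := by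
      intro ξ
      rw [if_pos (fun q hq => absurd hq (Finset.notMem_empty q)), mul_one]
    rw [Finset.sum_congr rfl fun ξ _ => h2 ξ, sum_wt]
  | insert q I hq ih =>
    have hdep' : ∀ ξ ξ' : Q → V → Bool, (∀ q, q ∉ I → ξ q = ξ' q) → K ξ = K ξ' := by
      intro ξ ξ' h
      apply hdep ξ ξ'
      intro q' hq'
      exact h q' (fun h2 => hq' (Finset.mem_insert_of_mem h2))
    have hupd : ∀ (ξ : Q → V → Bool) (r : V → Bool), K (Function.update ξ q r) = K ξ := by
      intro ξ r
      apply hdep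
      intro q' hq'
      rw [Function.update_of_ne]
      rintro rfl
      exact hq' (Finset.mem_insert_self _ _)
    rw [← resample ρ q (fun ξ : Q → V → Bool =>
      (if ∀ q' ∈ insert q I, ∃ v ∈ K ξ q', ξ q' v = true then (1 : ℝ) else 0))]
    have h2 : ∀ (ξ : Q → V → Bool) (r : V → Bool),
        (if ∀ q' ∈ insert q I, ∃ v ∈ K (Function.update ξ q r) q',
          Function.update ξ q r q' v = true then (1 : ℝ) else 0) =
        (if ∃ v ∈ K ξ q, r v = true then 1 else 0) *
          (if ∀ q' ∈ I, ∃ v ∈ K ξ q', ξ q' v = true then 1 else 0) := by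
      intro ξ r
      have h3 : (∀ q' ∈ insert q I, ∃ v ∈ K (Function.update ξ q r) q',
          Function.update ξ q r q' v = true) ↔
          (∃ v ∈ K ξ q, r v = true) ∧ ∀ q' ∈ I, ∃ v ∈ K ξ q', ξ q' v = true := by
        rw [hupd, Finset.forall_mem_insert, Function.update_self]
        apply and_congr_right'
        apply forall₂_congr
        intro q' hq'
        rw [Function.update_of_ne]
        rintro rfl
        exact hq hq'
      by_cases h4 : ∃ v ∈ K ξ q, r v = true
      · by_cases h5 : ∀ q' ∈ I, ∃ v ∈ K ξ q', ξ q' v = true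
        · rw [if_pos (h3.2 ⟨h4, h5⟩), if_pos h4, if_pos h5, mul_one]
        · rw [if_neg (fun h => h5 (h3.1 h).2), if_neg h5, mul_zero]
      · rw [if_neg (fun h => h4 (h3.1 h).1), if_neg h4, zero_mul]
    simp_rw [h2]
    have h3 : ∀ ξ : Q → V → Bool, wt ρ ξ * ∑ r : V → Bool, w1 ρ r *
        ((if ∃ v ∈ K ξ q, r v = true then 1 else 0) *
          (if ∀ q' ∈ I, ∃ v ∈ K ξ q', ξ q' v = true then 1 else 0)) ≤
        ((k : ℝ) * ρ) * (wt ρ ξ * (if ∀ q' ∈ I, ∃ v ∈ K ξ q', ξ q' v = true then 1 else 0)) := by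
      intro ξ
      have h4 : ∑ r : V → Bool, w1 ρ r *
        ((if ∃ v ∈ K ξ q, r v = true then 1 else 0) *
          (if ∀ q' ∈ I, ∃ v ∈ K ξ q', ξ q' v = true then (1 : ℝ) else 0)) =
          (∑ r : V → Bool, w1 ρ r * (if ∃ v ∈ K ξ q, r v = true then 1 else 0)) *
          (if ∀ q' ∈ I, ∃ v ∈ K ξ q', ξ q' v = true then (1 : ℝ) else 0) := by
        rw [Finset.sum_mul]
        exact Finset.sum_congr rfl fun r _ => by ring
      rw [h4]
      have h5 := row_bound h0 h1 k (K ξ q) (hK ξ q)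
      have h6 : 0 ≤ wt ρ ξ * (if ∀ q' ∈ I, ∃ v ∈ K ξ q', ξ q' v = true then (1 : ℝ) else 0) := by
        apply mul_nonneg (wt_nonneg h0 h1 ξ)
        split_ifs <;> norm_num
      have h7 := mul_le_mul_of_nonneg_right h5 h6
      calc _ = (∑ r : V → Bool, w1 ρ r * (if ∃ v ∈ K ξ q, r v = true then 1 else 0)) *
            (wt ρ ξ * (if ∀ q' ∈ I, ∃ v ∈ K ξ q', ξ q' v = true then (1 : ℝ) else 0)) := by ring
        _ ≤ _ := h7
    refine (Finset.sum_le_sum fun ξ _ => h3 ξ).trans ?_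
    rw [← Finset.mul_sum, Finset.card_insert_of_notMem hq, pow_succ']
    exact mul_le_mul_of_nonneg_left (ih hdep') (by positivity)

theorem st_COR : ST_COR := by
  intro Q V _ _ ρ k g I h0 h1
  -- the certificates
  let Pr : (Q → V → Bool) → Q → Finset (Q × V) → Prop := fun ξ q F => F.card ≤ k ∧
    (∀ e ∈ F, e.1 ∈ I → e.1 = q) ∧
      ∀ ξ' : Q → V → Bool, (∀ e ∈ F, ξ' e.1 e.2 = clr ξ q e.1 e.2) → ¬ g ξ'
  let zr : (Q → V → Bool) → (Q → V → Bool) := fun ξ q v => if q ∈ I then false else ξ q v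
  have hzr : ∀ ξ, ∀ q ∈ I, ∀ F, Pr ξ q F → Pr (zr ξ) q F := by
    rintro ξ q hq F ⟨hF1, hF2, hF3⟩
    refine ⟨hF1, hF2, fun ξ' h => hF3 ξ' (fun e he => ?_)⟩
    rw [h e he]
    unfold clr
    by_cases he1 : e.1 = q
    · rw [if_pos he1, if_pos he1]
    · rw [if_neg he1, if_neg he1]
      have h2 : e.1 ∉ I := fun h => he1 (hF2 e he h)
      change (if e.1 ∈ I then false else ξ e.1 e.2) = _
      rw [if_neg h2]
  let Fc : (Q → V → Bool) → Q → Finset (Q × V) := fun ξ q =>
    if h : ∃ F, Pr (zr ξ) q F then Classical.choose h else ∅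
  have hFc : ∀ ξ q, (∃ F, Pr (zr ξ) q F) → Pr (zr ξ) q (Fc ξ q) := by
    intro ξ q h
    change Pr (zr ξ) q (if h : ∃ F, Pr (zr ξ) q F then Classical.choose h else ∅)
    rw [dif_pos h]
    exact Classical.choose_spec h
  have hFk : ∀ ξ q, (Fc ξ q).card ≤ k := by
    intro ξ q
    by_cases h : ∃ F, Pr (zr ξ) q F
    · exact (hFc ξ q h).1
    · change (if h : ∃ F, Pr (zr ξ) q F then Classical.choose h else ∅ : Finset (Q × V)).card ≤ k
      rw [dif_neg h, Finset.card_empty]
      exact Nat.zero_le k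
  let K : (Q → V → Bool) → Q → Finset V := fun ξ q => (Fc ξ q).image Prod.snd
  have hmain := prod_bound h0 h1 k I K (fun ξ q => Finset.card_image_le.trans (hFk ξ q)) (by
    intro ξ ξ' h
    have h2 : zr ξ = zr ξ' := by
      funext q v
      change (if q ∈ I then false else ξ q v) = (if q ∈ I then false else ξ' q v)
      split_ifs with h3
      · rfl
      · rw [h q h3]
    funext q
    change (Fc ξ q).image Prod.snd = (Fc ξ' q).image Prod.snd
    have h3 : Fc ξ q = Fc ξ' q := by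
      change (if h : ∃ F, Pr (zr ξ) q F then Classical.choose h else ∅) =
        (if h : ∃ F, Pr (zr ξ') q F then Classical.choose h else ∅)
      rw [h2]
    rw [h3])
  refine le_trans (Finset.sum_le_sum fun ξ _ => ?_) hmain
  split_ifs with h2 h3
  · rw [mul_one]
  · exfalso
    apply h3
    intro q hq
    have h4 := hFc ξ q (by
      obtain ⟨F, hF⟩ := h2.2 q hq
      exact ⟨F, hzr ξ q hq F hF⟩)
    by_contra hcon
    push Not at hcon
    apply h4.2.2 ξ ?_ h2.1
    intro e he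
    unfold clr
    by_cases he1 : e.1 = q
    · rw [if_pos he1, he1]
      have h5 := hcon e.2 (Finset.mem_image_of_mem _ he)
      cases h6 : ξ q e.2
      · rfl
      · exact absurd h6 h5
    · rw [if_neg he1]
      have h5 : e.1 ∉ I := fun h => he1 (h4.2.1 e he h)
      change _ = (if e.1 ∈ I then false else ξ e.1 e.2)
      rw [if_neg h5]
  · rw [mul_one]
    exact wt_nonneg h0 h1 ξ
  · rw [mul_zero]

end Pool.Agent.Helper8.CS
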