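import Pool.Agent.Helper8.CS.Rs

set_option autoImplicit false

/-!
Project CS, row EMP: the weight of emptied configurations.   [helper8]
-/

namespace Pool.Agent.Helper8.CS

open Classical Pool.Agent.Helper62.CS

variable {Q V : Type} [Fintype Q] [Fintype V]

theorem w1_false (ρ : ℝ) : w1 ρ (fun _ : V => false) = (1 - ρ) ^ Fintype.card V := by
  unfold w1
  rw [Finset.prod_congr rfl (g := fun _ => 1 - ρ) (fun v _ => if_neg (by simp)),
    Finset.prod_const, Finset.card_univ]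

omit [Fintype Q] [Fintype V] in
theorem clr_eq (ξ : Q → V → Bool) (q : Q) : clr ξ q = Function.update ξ q (fun _ => false) := by
  funext q' v
  unfold clr
  by_cases h : q' = q
  · rw [if_pos h, h, Function.update_self]
  · rw [if_neg h, Function.update_of_ne h]

/-- one row -/
theorem emp_row {ρ : ℝ} (h0 : 0 ≤ ρ) (h1 : ρ ≤ 1) (f : (Q → V → Bool) → Prop) (q : Q) :
    (1 - ρ) ^ Fintype.card V * (∑ ξ : Q → V → Bool, wt ρ ξ *
      (if (∀ q', ∃ v, ξ q' v = true) ∧ f (clr ξ q) then 1 else 0)) ≤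
    ∑ ξ : Q → V → Bool, wt ρ ξ * (if f ξ ∧ (∀ v, ξ q v = false) ∧
      ∀ q', q' ≠ q → ∃ v, ξ q' v = true then 1 else 0) := by
  rw [← resample ρ q (fun ξ : Q → V → Bool => (if f ξ ∧ (∀ v, ξ q v = false) ∧
      ∀ q', q' ≠ q → ∃ v, ξ q' v = true then (1 : ℝ) else 0)), Finset.mul_sum]
  apply Finset.sum_le_sum
  intro ξ _
  rw [mul_left_comm]
  apply mul_le_mul_of_nonneg_left _ (wt_nonneg h0 h1 ξ)
  have hnn : ∀ r ∈ (Finset.univ : Finset (V → Bool)), 0 ≤ w1 ρ r *
      (if f (Function.update ξ q r) ∧ (∀ v, Function.update ξ q r q v = false) ∧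
        ∀ q', q' ≠ q → ∃ v, Function.update ξ q r q' v = true then (1 : ℝ) else 0) := by
    intro r _
    apply mul_nonneg (w1_nonneg h0 h1 r)
    split_ifs <;> norm_num
  refine le_trans ?_ (Finset.single_le_sum hnn (Finset.mem_univ (fun _ : V => false)))
  rw [w1_false]
  apply mul_le_mul_of_nonneg_left _ (pow_nonneg (by linarith) _)
  split_ifs with h2 h3
  · exact le_rfl
  · exfalso
    apply h3
    rw [← clr_eq]
    refine ⟨h2.2, fun v => ?_, fun q' hq' => ?_⟩
    · unfold clr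
      rw [if_pos rfl]
    · obtain ⟨v, hv⟩ := h2.1 q'
      refine ⟨v, ?_⟩
      unfold clr
      rw [if_neg hq', hv]
  · norm_num
  · exact le_rfl

theorem st_EMP : ST_EMP := by
  intro Q V _ _ ρ f h0 h1
  have e1 : ∀ ξ : Q → V → Bool, (if (∀ q, ∃ v, ξ q v = true) then
      wt ρ ξ * ((Finset.univ.filter (fun q => f (clr ξ q))).card : ℝ) else 0) =
      ∑ q : Q, wt ρ ξ * (if (∀ q', ∃ v, ξ q' v = true) ∧ f (clr ξ q) then 1 else 0) := by
    intro ξ
    rw [← Finset.mul_sum]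
    by_cases h : ∀ q, ∃ v, ξ q v = true
    · rw [if_pos h, Finset.card_filter]
      congr 1
      rw [Nat.cast_sum]
      apply Finset.sum_congr rfl
      intro q _
      by_cases h2 : f (clr ξ q)
      · rw [if_pos h2, if_pos ⟨h, h2⟩, Nat.cast_one]
      · rw [if_neg h2, if_neg (fun h3 => h2 h3.2), Nat.cast_zero]
    · rw [if_neg h, Finset.sum_eq_zero, mul_zero]
      intro q _
      rw [if_neg (fun h3 => h h3.1)]
  rw [Finset.sum_congr rfl fun ξ _ => e1 ξ, Finset.sum_comm, Finset.mul_sum]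
  refine (Finset.sum_le_sum fun q _ => emp_row h0 h1 f q).trans ?_
  rw [Finset.sum_comm]
  apply Finset.sum_le_sum
  intro ξ _
  rw [← Finset.mul_sum]
  -- at most one row
  have h2 : ∑ q : Q, (if f ξ ∧ (∀ v, ξ q v = false) ∧
      ∀ q', q' ≠ q → ∃ v, ξ q' v = true then (1 : ℝ) else 0) ≤
      (if f ξ ∧ ¬ ∀ q, ∃ v, ξ q v = true then 1 else 0) := by
    by_cases h3 : ∃ q : Q, f ξ ∧ (∀ v, ξ q v = false) ∧ ∀ q', q' ≠ q → ∃ v, ξ q' v = true
    · obtain ⟨q, hf, hq, hq'⟩ := h3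
      have h4 : f ξ ∧ ¬ ∀ q, ∃ v, ξ q v = true := by
        refine ⟨hf, fun h => ?_⟩
        obtain ⟨v, hv⟩ := h q
        rw [hq v] at hv
        exact Bool.false_ne_true hv
      rw [if_pos h4, Finset.sum_eq_single q]
      · rw [if_pos ⟨hf, hq, hq'⟩]
      · intro p _ hp
        rw [if_neg]
        rintro ⟨-, hp2, -⟩
        obtain ⟨v, hv⟩ := hq' p hp
        rw [hp2 v] at hv
        exact Bool.false_ne_true hv
      · intro h
        exact absurd (Finset.mem_univ q) h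
    · rw [Finset.sum_eq_zero]
      · split_ifs <;> norm_num
      · intro q _
        rw [if_neg (fun h4 => h3 ⟨q, h4⟩)]
  refine (mul_le_mul_of_nonneg_left h2 (wt_nonneg h0 h1 ξ)).trans ?_
  split_ifs
  · rw [mul_one]
  · rw [mul_zero]

end Pool.Agent.Helper8.CS
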