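import Pool.Agent.Helper62.CS.Stmts

set_option autoImplicit false

/-!
Project CS, row IND: independent sets in digraphs of small out-degree.   [helper8]
-/

namespace Pool.Agent.Helper8.CS

open Classical Pool.Agent.Helper62.CS

theorem st_IND : ST_IND := by
  intro Q _ C N k r
  induction r generalizing C with
  | zero =>
    intro _ _
    exact ⟨∅, Finset.empty_subset _, rfl, fun q hq => absurd hq (Finset.notMem_empty q)⟩
  | succ r ih =>
    intro hN hC
    have hpos : 0 < C.card := lt_of_lt_of_le (by positivity) hC
    have hne : C.Nonempty := Finset.card_pos.1 hpos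
    have hsum : ∑ q ∈ C, (C.filter (fun q' => q ∈ N q')).card ≤ ∑ _q ∈ C, k := by
      have h1 : ∑ q ∈ C, (C.filter (fun q' => q ∈ N q')).card =
          ∑ q' ∈ C, (C.filter (fun q => q ∈ N q')).card := by
        simp_rw [Finset.card_filter]
        rw [Finset.sum_comm]
      rw [h1]
      apply Finset.sum_le_sum
      intro q' hq'
      refine le_trans (Finset.card_le_card ?_) (hN q' hq')
      intro q hq
      exact (Finset.mem_filter.1 hq).2
    obtain ⟨q, hq, hqk⟩ := Finset.exists_le_of_sum_le hne hsum
    set D : Finset Q := insert q (N q ∪ C.filter (fun q' => q ∈ N q')) with hD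
    have hDc : D.card ≤ 2 * k + 1 := by
      refine (Finset.card_insert_le _ _).trans ?_
      have h1 := Finset.card_union_le (N q) (C.filter (fun q' => q ∈ N q'))
      have h2 := hN q hq
      omega
    have hC' : r * (2 * k + 1) ≤ (C \ D).card := by
      have h1 := Finset.le_card_sdiff D C
      have h2 : (r + 1) * (2 * k + 1) = r * (2 * k + 1) + (2 * k + 1) := by ring
      omega
    obtain ⟨I, hI1, hI2, hI3⟩ := ih (C \ D)
      (fun q' hq' => hN q' (Finset.mem_sdiff.1 hq').1) hC'
    have hqI : q ∉ I := fun h =>
      (Finset.mem_sdiff.1 (hI1 h)).2 (Finset.mem_insert_self _ _)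
    refine ⟨insert q I, ?_, ?_, ?_⟩
    · intro x hx
      rw [Finset.mem_insert] at hx
      rcases hx with rfl | hx
      · exact hq
      · exact (Finset.mem_sdiff.1 (hI1 hx)).1
    · rw [Finset.card_insert_of_notMem hqI, hI2]
    · intro x hx y hy hxy
      rw [Finset.mem_insert] at hx hy
      rcases hx with rfl | hx
      · rcases hy with rfl | hy
        · exact absurd rfl hxy
        · intro hyN
          exact (Finset.mem_sdiff.1 (hI1 hy)).2
            (Finset.mem_insert_of_mem (Finset.mem_union_left _ hyN))
      · rcases hy with rfl | hy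
        · intro hyN
          have h1 := Finset.mem_sdiff.1 (hI1 hx)
          exact h1.2 (Finset.mem_insert_of_mem (Finset.mem_union_right _
            (Finset.mem_filter.2 ⟨h1.1, hyN⟩)))
        · exact hI3 x hx y hy hxy

end Pool.Agent.Helper8.CS
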