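import Pool.Agent.Helper62.CS.Stmts

set_option autoImplicit false

/-!
Project CS, row LC3: runs with a nondeterministic oracle.   [helper8]
-/

namespace Pool.Agent.Helper8.CS

open Classical Pool.Agent.Helper62.CS

/-- the run with the answers `a` -/
def srun (P : Prog) (inp : List Str) (a : ℕ → Bool) : ℕ → Cfg
  | 0 => init inp
  | t + 1 => stepA P (a t) (srun P inp a t)

theorem srun_real (P : Prog) (O : Lang) (inp : List Str) (a : ℕ → Bool) (T : ℕ)
    (h : ∀ t < T, a t = decide (qstr P (srun P inp a t) ∈ O)) :
    srun P inp a T = (step P O)^[T] (init inp) := by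
  induction T with
  | zero => rfl
  | succ T ih =>
    rw [Function.iterate_succ_apply', ← ih (fun t ht => h t (Nat.lt_succ_of_lt ht))]
    change stepA P (a T) (srun P inp a T) = _
    rw [h T (Nat.lt_succ_self T)]
    rfl

theorem stepA_len (P : Prog) (a : Bool) (c : Cfg) (l : ℕ) (h : ∀ i, (c.st i).length ≤ l) :
    ∀ i, ((stepA P a c).st i).length ≤ l + 1 := by
  intro i
  unfold stepA
  split
  · rename_i j b n _
    by_cases hi : i = j
    · subst hi
      simp only [Function.update_self, List.length_cons]
      exact Nat.succ_le_succ (h i)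
    · simp only [Function.update_of_ne hi]
      exact (h i).trans (Nat.le_succ l)
  · rename_i j n f t _
    split
    · exact (h i).trans (Nat.le_succ l)
    · rename_i l' hl'
      by_cases hi : i = j
      · subst hi
        simp only [Function.update_self]
        have h1 := h i
        rw [hl', List.length_cons] at h1
        omega
      · simp only [Function.update_of_ne hi]
        exact (h i).trans (Nat.le_succ l)
    · rename_i l' hl'
      by_cases hi : i = j
      · subst hi
        simp only [Function.update_self]
        have h1 := h i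
        rw [hl', List.length_cons] at h1
        omega
      · simp only [Function.update_of_ne hi]
        exact (h i).trans (Nat.le_succ l)
  · exact (h i).trans (Nat.le_succ l)
  · exact (h i).trans (Nat.le_succ l)

theorem srun_len (P : Prog) (inp : List Str) (a : ℕ → Bool) (l : ℕ)
    (h : ∀ x ∈ inp, x.length ≤ l) (t : ℕ) : ∀ i, ((srun P inp a t).st i).length ≤ l + t := by
  induction t with
  | zero =>
    intro i
    change (inp.getD i []).length ≤ l + 0
    by_cases hi : i < inp.length
    · rw [List.getD_eq_getElem _ _ hi]
      exact h _ (List.getElem_mem hi)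
    · rw [List.getD_eq_default _ _ (not_lt.1 hi)]
      exact Nat.zero_le _
  | succ t ih => exact stepA_len P (a t) _ (l + t) ih

theorem qstr_len (P : Prog) (c : Cfg) (l : ℕ) (h : ∀ i, (c.st i).length ≤ l) :
    (qstr P c).length ≤ l := by
  unfold qstr
  split
  · exact h _
  · exact Nat.zero_le _

/-- decoding of words of length at most `m` -/
def dec (m : ℕ) (b : Fin (m + 1) → Bool) : Str :=
  ((List.ofFn b).dropWhile (fun x => !x)).tail

theorem dec_len (m : ℕ) (b : Fin (m + 1) → Bool) : (dec m b).length ≤ m := by
  unfold dec
  rw [List.length_tail]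
  have h1 : ((List.ofFn b).dropWhile (fun x => !x)).length ≤ (List.ofFn b).length :=
    (List.dropWhile_sublist _).length_le
  rw [List.length_ofFn] at h1
  omega

theorem dropWhile_rep (n : ℕ) (w : Str) :
    ((List.replicate n false ++ true :: w).dropWhile (fun x => !x)) = true :: w := by
  induction n with
  | zero => rfl
  | succ n ih =>
    rw [List.replicate_succ, List.cons_append, List.dropWhile_cons]
    simp only [Bool.not_false, if_true]
    exact ih

theorem dec_surj (m : ℕ) (w : Str) (hw : w.length ≤ m) : ∃ b, dec m b = w := by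
  set L : Str := List.replicate (m - w.length) false ++ true :: w with hL
  have hlen : L.length = m + 1 := by
    rw [hL, List.length_append, List.length_replicate, List.length_cons]
    omega
  refine ⟨fun i => L[(i : ℕ)]'(by rw [hlen]; exact i.2), ?_⟩
  have h1 : List.ofFn (fun i : Fin (m + 1) => L[(i : ℕ)]'(by rw [hlen]; exact i.2)) = L := by
    apply List.ext_getElem
    · rw [List.length_ofFn, hlen]
    · intro i hi1 hi2
      rw [List.getElem_ofFn]
  unfold dec
  rw [h1, hL, dropWhile_rep, List.tail_cons]

/-- extension of a script -/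
def ext {T : ℕ} (a : Fin T → Bool) (t : ℕ) : Bool := if h : t < T then a ⟨t, h⟩ else false

theorem st_LC3 : ST_LC3 := by
  intro P inp T l m k Ψ B hinp hB hΨ
  have hcard : Fintype.card ((Fin T → Bool) × (Fin T → Fin (m + 1) → Bool)) =
      2 ^ (T * (m + 2)) := by
    rw [Fintype.card_prod, Fintype.card_fun, Fintype.card_fun, Fintype.card_fun, Fintype.card_bool,
      Fintype.card_fin, Fintype.card_fin, ← pow_mul, ← pow_add]
    congr 1
    ring
  let e := (Fintype.equivFinOfCardEq hcard).symm
  let z : (Fin T → Bool) → ℕ → Str := fun a t => qstr P (srun P inp (ext a) t)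
  have hz : ∀ a t, t < T → (z a t).length ≤ l + T := fun a t ht =>
    (qstr_len P _ (l + t) (srun_len P inp (ext a) l hinp t)).trans (by omega)
  let G : (Fin T → Bool) × (Fin T → Fin (m + 1) → Bool) → Lang → Prop := fun p O =>
    P[(srun P inp (ext p.1) T).pc]? = some Instr.accept ∧ ∀ t : Fin T,
      (p.1 t = true → Ψ (z p.1 t) (dec m (p.2 t)) O) ∧
      (p.1 t = false → ∀ w : Str, w.length ≤ m → ¬ Ψ (z p.1 t) w O)
  refine ⟨2 ^ (T * (m + 2)), fun i => G (e i), le_rfl, ?_, ?_⟩
  · intro i O hO
    by_cases hacc : P[(srun P inp (ext (e i).1) T).pc]? = some Instr.accept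
    · have h1 : ¬ ∀ t : Fin T, ((e i).1 t = true → Ψ (z (e i).1 t) (dec m ((e i).2 t)) O) ∧
          ((e i).1 t = false → ∀ w : Str, w.length ≤ m → ¬ Ψ (z (e i).1 t) w O) :=
        fun h => hO ⟨hacc, h⟩
      rw [not_forall] at h1
      obtain ⟨t, ht⟩ := h1
      rw [not_and_or] at ht
      rcases ht with ht | ht
      · rw [Classical.not_imp] at ht
        obtain ⟨ht1, ht2⟩ := ht
        obtain ⟨F, hF, hF'⟩ := hΨ (z (e i).1 t) (dec m ((e i).2 t)) (hz _ _ t.2) (dec_len _ _) O
        exact ⟨F, hF, fun O' hO' hG => ht2 ((hF' O' hO').2 ((hG.2 t).1 ht1))⟩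
      · rw [Classical.not_imp, not_forall] at ht
        obtain ⟨ht1, w, ht2⟩ := ht
        rw [Classical.not_imp, not_not] at ht2
        obtain ⟨hw, ht3⟩ := ht2
        obtain ⟨F, hF, hF'⟩ := hΨ (z (e i).1 t) w (hz _ _ t.2) hw O
        exact ⟨F, hF, fun O' hO' hG => (hG.2 t).2 ht1 w hw ((hF' O' hO').1 ht3)⟩
    · exact ⟨∅, Nat.zero_le _, fun O' _ hG => hacc hG.1⟩
  · intro O
    constructor
    · intro hacc
      let c : ℕ → Cfg := fun t => (step P (B O))^[t] (init inp)
      let a : Fin T → Bool := fun t => decide (qstr P (c t) ∈ B O)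
      have hreal : ∀ t ≤ T, srun P inp (ext a) t = c t := by
        intro t
        induction t with
        | zero => intro _; rfl
        | succ t ih =>
          intro ht
          change stepA P (ext a t) (srun P inp (ext a) t) =
            (step P (B O))^[t + 1] (init inp)
          rw [Function.iterate_succ_apply', ih (by omega)]
          have h1 : ext a t = decide (qstr P (c t) ∈ B O) := by
            unfold ext
            rw [dif_pos (by omega)]
          rw [h1]
          rfl
      have hw : ∀ t : Fin T, ∃ b : Fin (m + 1) → Bool, a t = true → Ψ (z a t) (dec m b) O := by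
        intro t
        by_cases ht : a t = true
        · have h1 : z a t ∈ B O := by
            change qstr P (srun P inp (ext a) t) ∈ B O
            rw [hreal t t.2.le]
            exact of_decide_eq_true ht
          obtain ⟨w, hw1, hw2⟩ := (hB (z a t) (hz a t t.2) O).1 h1
          obtain ⟨b, hb⟩ := dec_surj m w hw1
          exact ⟨b, fun _ => by rw [hb]; exact hw2⟩
        · exact ⟨fun _ => false, fun h => absurd h ht⟩
      choose w hw using hw
      refine ⟨e.symm (a, w), ?_⟩
      change G (e (e.symm (a, w))) O
      rw [Equiv.apply_symm_apply]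
      refine ⟨?_, fun t => ⟨hw t, fun ht w' hw' hΨ' => ?_⟩⟩
      · change P[(srun P inp (ext a) T).pc]? = some Instr.accept
        rw [hreal T le_rfl]
        exact hacc
      · have h1 : z a t ∈ B O := (hB (z a t) (hz a t t.2) O).2 ⟨w', hw', hΨ'⟩
        have h2 : qstr P (c t) ∈ B O := by
          rw [← hreal t t.2.le]
          exact h1
        have h3 : a t = true := decide_eq_true h2
        have h4 : a t = false := ht
        rw [h3] at h4
        exact absurd h4 (by simp)
    · rintro ⟨i, hacc, hG⟩
      have h1 : srun P inp (ext (e i).1) T = (step P (B O))^[T] (init inp) := by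
        apply srun_real
        intro t ht
        have h2 : ext (e i).1 t = (e i).1 ⟨t, ht⟩ := by
          unfold ext
          rw [dif_pos ht]
        rw [h2]
        obtain ⟨h3, h4⟩ := hG ⟨t, ht⟩
        cases hb : (e i).1 ⟨t, ht⟩
        · symm
          apply decide_eq_false
          intro h5
          obtain ⟨w, hw1, hw2⟩ := (hB (z (e i).1 t) (hz _ t ht) O).1 h5
          exact h4 hb w hw1 hw2
        · symm
          apply decide_eq_true
          exact (hB (z (e i).1 t) (hz _ t ht) O).2 ⟨_, dec_len _ _, h3 hb⟩
      unfold Accepts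
      rw [← h1]
      exact hacc

end Pool.Agent.Helper8.CS
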