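import Pool.Agent.Helper62.CS.Stmts

set_option autoImplicit false

/-!
Project CS: resampling of one row.   [helper8]
-/

namespace Pool.Agent.Helper8.CS

open Classical Pool.Agent.Helper62.CS

variable {Q V : Type} [Fintype Q] [Fintype V]

/-- weight of a row -/
noncomputable def w1 (ρ : ℝ) (r : V → Bool) : ℝ := ∏ v, (if r v = true then ρ else 1 - ρ)

theorem wt_eq (ρ : ℝ) (ξ : Q → V → Bool) : wt ρ ξ = ∏ q, w1 ρ (ξ q) := rfl

theorem w1_nonneg {ρ : ℝ} (h0 : 0 ≤ ρ) (h1 : ρ ≤ 1) (r : V → Bool) : 0 ≤ w1 ρ r := by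
  unfold w1
  apply Finset.prod_nonneg
  intro v _
  split_ifs
  · exact h0
  · linarith

theorem wt_nonneg {ρ : ℝ} (h0 : 0 ≤ ρ) (h1 : ρ ≤ 1) (ξ : Q → V → Bool) : 0 ≤ wt ρ ξ := by
  rw [wt_eq]
  exact Finset.prod_nonneg fun q _ => w1_nonneg h0 h1 _

theorem sum_w1 (ρ : ℝ) : ∑ r : V → Bool, w1 ρ r = 1 := by
  unfold w1
  rw [← Fintype.prod_sum (fun (_ : V) (b : Bool) => if b = true then ρ else 1 - ρ)]
  apply Finset.prod_eq_one
  intro v _
  simp

theorem sum_wt (ρ : ℝ) : ∑ ξ : Q → V → Bool, wt ρ ξ = 1 := by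
  have h : ∑ ξ : Q → V → Bool, wt ρ ξ = ∑ ξ : Q → V → Bool, ∏ q, w1 ρ (ξ q) := rfl
  rw [h, ← Fintype.prod_sum (fun (_ : Q) (r : V → Bool) => w1 ρ r)]
  exact Finset.prod_eq_one fun q _ => sum_w1 ρ

theorem sum_w1_true (ρ : ℝ) (v : V) : ∑ r : V → Bool, (if r v = true then w1 ρ r else 0) = ρ := by
  have h1 : ∀ r : V → Bool, (if r v = true then w1 ρ r else 0) =
      ∏ u, (if u = v then (if r u = true then ρ else 0) else (if r u = true then ρ else 1 - ρ)) := by
    intro r
    by_cases hr : r v = true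
    · rw [if_pos hr]
      unfold w1
      apply Finset.prod_congr rfl
      intro u _
      by_cases hu : u = v
      · rw [if_pos hu, hu, if_pos hr, if_pos hr]
      · rw [if_neg hu]
    · rw [if_neg hr]
      symm
      apply Finset.prod_eq_zero (Finset.mem_univ v)
      rw [if_pos rfl, if_neg hr]
  simp_rw [h1]
  rw [← Fintype.prod_sum (fun (u : V) (b : Bool) =>
    if u = v then (if b = true then ρ else 0) else (if b = true then ρ else 1 - ρ))]
  have h2 : ∀ u : V, (∑ b : Bool, if u = v then (if b = true then ρ else 0) else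
      (if b = true then ρ else 1 - ρ)) = if u = v then ρ else 1 := by
    intro u
    split_ifs <;> simp
  simp_rw [h2]
  rw [Finset.prod_ite_eq' Finset.univ v (fun _ => ρ), if_pos (Finset.mem_univ v)]

theorem wt_update (ρ : ℝ) (ξ : Q → V → Bool) (q : Q) (r : V → Bool) :
    wt ρ (Function.update ξ q r) * w1 ρ (ξ q) = wt ρ ξ * w1 ρ r := by
  have h1 : wt ρ (Function.update ξ q r) =
      w1 ρ r * ∏ x ∈ Finset.univ \ {q}, w1 ρ (ξ x) := by
    rw [wt_eq, ← Finset.prod_update_of_mem (Finset.mem_univ q) (fun x => w1 ρ (ξ x)) (w1 ρ r)]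
    apply Finset.prod_congr rfl
    intro x _
    by_cases hx : x = q
    · rw [hx, Function.update_self, Function.update_self]
    · rw [Function.update_of_ne hx, Function.update_of_ne hx]
  have h2 : wt ρ ξ = w1 ρ (ξ q) * ∏ x ∈ Finset.univ \ {q}, w1 ρ (ξ x) := by
    rw [wt_eq, ← Finset.prod_update_of_mem (Finset.mem_univ q) (fun x => w1 ρ (ξ x)) (w1 ρ (ξ q)),
      Function.update_eq_self]
  rw [h1, h2]
  ring

/-- resampling of one row -/
theorem resample (ρ : ℝ) (q : Q) (f : (Q → V → Bool) → ℝ) :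
    ∑ ξ : Q → V → Bool, wt ρ ξ * ∑ r : V → Bool, w1 ρ r * f (Function.update ξ q r) =
      ∑ ξ : Q → V → Bool, wt ρ ξ * f ξ := by
  have h1 : ∑ ξ : Q → V → Bool, wt ρ ξ * ∑ r : V → Bool, w1 ρ r * f (Function.update ξ q r) =
      ∑ p : (Q → V → Bool) × (V → Bool), wt ρ p.1 * (w1 ρ p.2 * f (Function.update p.1 q p.2)) := by
    rw [Fintype.sum_prod_type]
    apply Finset.sum_congr rfl
    intro ξ _
    rw [Finset.mul_sum]
  have h2 : ∑ ξ : Q → V → Bool, wt ρ ξ * f ξ =
      ∑ p : (Q → V → Bool) × (V → Bool), wt ρ p.1 * w1 ρ p.2 * f p.1 := by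
    rw [Fintype.sum_prod_type]
    apply Finset.sum_congr rfl
    intro ξ _
    dsimp only
    rw [← Finset.sum_mul, ← Finset.mul_sum, sum_w1, mul_one]
  rw [h1, h2]
  have hinv : Function.Involutive (fun p : (Q → V → Bool) × (V → Bool) =>
      ((Function.update p.1 q p.2, p.1 q) : (Q → V → Bool) × (V → Bool))) := by
    rintro ⟨ξ, r⟩
    dsimp only
    rw [Function.update_self, Function.update_idem, Function.update_eq_self]
  apply Fintype.sum_equiv hinv.toPerm
  rintro ⟨ξ, r⟩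
  change wt ρ ξ * (w1 ρ r * f (Function.update ξ q r)) =
    wt ρ (Function.update ξ q r) * w1 ρ (ξ q) * f (Function.update ξ q r)
  rw [wt_update]
  ring

end Pool.Agent.Helper8.CS
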